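import Mathlib

namespace Pool.Agent.R795.Myc

open Filter Topology
open scoped RealInnerProductSpace

variable {E : Type*} [NormedAddCommGroup E] [InnerProductSpace ℝ E]

/-- Isometries mapping `X` into itself, the image missing `p` or `q`. -/
def Sg (X : Set E) (p q : E) : Set (E ≃ᵃⁱ[ℝ] E) :=
  {v | (∀ x ∈ X, v x ∈ X) ∧ ¬ (p ∈ v '' X ∧ q ∈ v '' X)}

/-- Every point of `X` is isolated in `X`. -/
def Isol (X : Set E) : Prop := ∀ x ∈ X, ∃ ε > 0, ∀ y ∈ X, dist y x < ε → y = x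

theorem mul_app (v w : E ≃ᵃⁱ[ℝ] E) (x : E) : (v * w) x = v (w x) := rfl

theorem one_app (x : E) : (1 : E ≃ᵃⁱ[ℝ] E) x = x := rfl

theorem inv_app (v : E ≃ᵃⁱ[ℝ] E) (x : E) : v⁻¹ (v x) = x := by
  rw [← mul_app, inv_mul_cancel, one_app]

theorem app_inv (v : E ≃ᵃⁱ[ℝ] E) (x : E) : v (v⁻¹ x) = x := by
  rw [← mul_app, mul_inv_cancel, one_app]

theorem sg_mul {X : Set E} {p q : E} {v w : E ≃ᵃⁱ[ℝ] E} (hv : v ∈ Sg X p q)
    (hw : ∀ x ∈ X, w x ∈ X) : v * w ∈ Sg X p q := by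
  refine ⟨fun x hx => hv.1 _ (hw x hx), fun h => hv.2 ?_⟩
  obtain ⟨⟨x, hx, h1⟩, ⟨y, hy, h2⟩⟩ := h
  exact ⟨⟨w x, hw x hx, h1⟩, ⟨w y, hw y hy, h2⟩⟩

theorem telescope {X : Set E} {p q : E} (W : ℕ → E ≃ᵃⁱ[ℝ] E)
    (hW : ∀ j, (W j)⁻¹ * W (j + 1) ∈ Sg X p q) (i k : ℕ) :
    (W i)⁻¹ * W (i + k + 1) ∈ Sg X p q := by
  induction k with
  | zero => exact hW i
  | succ k ih =>
    have h := sg_mul ih (hW (i + k + 1)).1
    have he : (W i)⁻¹ * W (i + k + 1) * ((W (i + k + 1))⁻¹ * W (i + k + 1 + 1)) =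
        (W i)⁻¹ * W (i + (k + 1) + 1) := by
      rw [show i + k + 1 + 1 = i + (k + 1) + 1 by ring]
      group
    rwa [he] at h

theorem no_bounded [FiniteDimensional ℝ E] {X : Set E} {p q : E} (hX : Isol X) (hp : p ∈ X)
    (hq : q ∈ X) (W : ℕ → E ≃ᵃⁱ[ℝ] E)
    (hW : ∀ j, (W j)⁻¹ * W (j + 1) ∈ Sg X p q) (B : ℝ) (hB : ∀ j, dist (W j p) p ≤ B) : False := by
  obtain ⟨ε1, he1, h1⟩ := hX p hp
  obtain ⟨ε2, he2, h2⟩ := hX q hq
  have hbd : Bornology.IsBounded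
      (Metric.closedBall p B ×ˢ Metric.closedBall p (dist p q + B)) :=
    Metric.isBounded_closedBall.prod Metric.isBounded_closedBall
  have hmem : ∀ j, (W j p, W j q) ∈ Metric.closedBall p B ×ˢ Metric.closedBall p (dist p q + B) := by
    intro j
    refine ⟨by simpa using hB j, ?_⟩
    simp only [Metric.mem_closedBall]
    calc dist (W j q) p ≤ dist (W j q) (W j p) + dist (W j p) p := dist_triangle _ _ _
      _ ≤ dist p q + B := by
        rw [(W j).dist_map, dist_comm q p]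
        exact add_le_add le_rfl (hB j)
  obtain ⟨a, -, φ, hφ, ha⟩ := tendsto_subseq_of_bounded hbd hmem
  have hc := ha.cauchySeq
  rw [Metric.cauchySeq_iff] at hc
  obtain ⟨N, hN⟩ := hc (min ε1 ε2) (lt_min he1 he2)
  have hlt := hφ (Nat.lt_succ_self N)
  have hd := hN (N + 1) (by omega) N (by omega)
  simp only [Function.comp, Prod.dist_eq] at hd
  have hd1 : dist (W (φ (N + 1)) p) (W (φ N) p) < ε1 :=
    lt_of_le_of_lt (le_max_left _ _) (lt_of_lt_of_le hd (min_le_left _ _))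
  have hd2 : dist (W (φ (N + 1)) q) (W (φ N) q) < ε2 :=
    lt_of_le_of_lt (le_max_right _ _) (lt_of_lt_of_le hd (min_le_right _ _))
  obtain ⟨k, hk⟩ := Nat.exists_eq_add_of_lt hlt
  have hv := telescope W hW (φ N) k
  rw [← hk] at hv
  have key : ∀ x : E, dist (((W (φ N))⁻¹ * W (φ (N + 1))) x) x =
      dist (W (φ (N + 1)) x) (W (φ N) x) := by
    intro x
    rw [mul_app, ← (W (φ N)).dist_map, app_inv]
  have e1 := h1 _ (hv.1 p hp) (by rw [key]; exact hd1)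
  have e2 := h2 _ (hv.1 q hq) (by rw [key]; exact hd2)
  exact hv.2 ⟨⟨p, hp, e1⟩, ⟨q, hq, e2⟩⟩

theorem sg_pow {X : Set E} {p q : E} {v : E ≃ᵃⁱ[ℝ] E} (hv : v ∈ Sg X p q) (n : ℕ) :
    v ^ (n + 1) ∈ Sg X p q := by
  induction n with
  | zero => simpa using hv
  | succ n ih => rw [pow_succ]; exact sg_mul ih hv.1

theorem no_fixed [FiniteDimensional ℝ E] {X : Set E} {p q : E} (hX : Isol X) (hp : p ∈ X)
    (hq : q ∈ X) {v : E ≃ᵃⁱ[ℝ] E} (hv : v ∈ Sg X p q) (z : E) : v z ≠ z := by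
  intro hz
  have hz' : ∀ j : ℕ, (v ^ j) z = z := by
    intro j
    induction j with
    | zero => rfl
    | succ j ih => rw [pow_succ, mul_app, hz, ih]
  refine no_bounded hX hp hq (fun j => v ^ j) ?_ (dist p z + dist p z) ?_
  · intro j
    rw [pow_succ, ← mul_assoc, inv_mul_cancel, one_mul]
    exact hv
  · intro j
    calc dist ((v ^ j) p) p ≤ dist ((v ^ j) p) z + dist z p := dist_triangle _ _ _
      _ = dist ((v ^ j) p) ((v ^ j) z) + dist z p := by rw [hz' j]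
      _ = dist p z + dist p z := by rw [(v ^ j).dist_map, dist_comm z p]

theorem unbounded_orbit [FiniteDimensional ℝ E] {X : Set E} {p q : E} (hX : Isol X) (hp : p ∈ X)
    (hq : q ∈ X) {v : E ≃ᵃⁱ[ℝ] E} (hv : v ∈ Sg X p q) (B : ℝ) :
    ∃ n : ℕ, B < ‖(v ^ (n + 1)) p - p‖ := by
  by_contra hcon
  push Not at hcon
  refine no_bounded hX hp hq (fun j => v ^ (j + 1)) ?_ B ?_
  · intro j
    rw [pow_succ v (j + 1), ← mul_assoc, inv_mul_cancel, one_mul]
    exact hv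
  · intro j
    rw [dist_eq_norm]
    exact hcon j

/-- The linear part. -/
noncomputable abbrev R (v : E ≃ᵃⁱ[ℝ] E) : E ≃ₗᵢ[ℝ] E := v.linearIsometryEquiv

theorem R_sub (v : E ≃ᵃⁱ[ℝ] E) (x y : E) : R v (x - y) = v x - v y := by
  have := v.map_vsub x y
  simpa using this

theorem app_eq (v : E ≃ᵃⁱ[ℝ] E) (x : E) : v x = R v x + v 0 := by
  have := R_sub v x 0
  rw [sub_zero] at this
  rw [this]; abel

theorem R_mul (v w : E ≃ᵃⁱ[ℝ] E) (x : E) : R (v * w) x = R v (R w x) := by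
  have h1 := R_sub (v * w) x 0
  rw [mul_app, mul_app, ← R_sub, ← R_sub, sub_zero] at h1
  exact h1

theorem R_one (x : E) : R (1 : E ≃ᵃⁱ[ℝ] E) x = x := by
  have h1 := R_sub (1 : E ≃ᵃⁱ[ℝ] E) x 0
  simpa [one_app] using h1

/-- Steering. -/
theorem steering [FiniteDimensional ℝ E] {X : Set E} {p q : E} (hX : Isol X) (hp : p ∈ X)
    (hq : q ∈ X) (hne : (Sg X p q).Nonempty) :
    ∃ v0 : E, ‖v0‖ = 1 ∧ ∀ w ∈ Sg X p q, 0 ≤ ⟪w p - p, v0⟫ := by
  by_contra hcon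
  push Not at hcon
  -- uniformity
  have huni : ∃ n : ℕ, ∀ v : E, ‖v‖ = 1 → ∃ w ∈ Sg X p q, ‖w p - p‖ ≤ n ∧
      ⟪w p - p, v⟫ < -(1 / ((n : ℝ) + 1)) := by
    have hcomp := isCompact_sphere (0 : E) 1
    let U : ℕ → Set E := fun n : ℕ => {v : E | ∃ w ∈ Sg X p q, ‖w p - p‖ ≤ n ∧
        ⟪w p - p, v⟫ < -(1 / ((n : ℝ) + 1))}
    have hUo : ∀ n, IsOpen (U n) := by
      intro n
      have : U n = ⋃ w ∈ {w | w ∈ Sg X p q ∧ ‖w p - p‖ ≤ n},
          {v : E | ⟪w p - p, v⟫ < -(1 / ((n : ℝ) + 1))} := by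
        ext v
        simp only [U, Set.mem_ofPred_eq, Set.mem_iUnion, exists_prop]
        constructor
        · rintro ⟨w, h1, h2, h3⟩
          exact ⟨w, ⟨h1, h2⟩, h3⟩
        · rintro ⟨w, ⟨h1, h2⟩, h3⟩
          exact ⟨w, h1, h2, h3⟩
      rw [this]
      refine isOpen_biUnion fun w _ => ?_
      exact isOpen_lt (by fun_prop) continuous_const
    have hcov : Metric.sphere (0 : E) 1 ⊆ ⋃ n, U n := by
      intro v hv
      obtain ⟨w, hw, h⟩ := hcon v (by simpa using hv)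
      obtain ⟨n1, hn1⟩ := exists_nat_ge ‖w p - p‖
      obtain ⟨n2, hn2⟩ := exists_nat_one_div_lt (neg_pos.mpr h)
      simp only [U, Set.mem_iUnion, Set.mem_ofPred_eq]
      refine ⟨max n1 n2, w, hw, le_trans hn1 (by exact_mod_cast le_max_left _ _), ?_⟩
      have h3 : 1 / (((max n1 n2 : ℕ) : ℝ) + 1) ≤ 1 / ((n2 : ℝ) + 1) := by
        apply one_div_le_one_div_of_le (by positivity)
        have : (n2 : ℝ) ≤ ((max n1 n2 : ℕ) : ℝ) := by exact_mod_cast le_max_right _ _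
        linarith
      linarith
    have hdir : Directed (· ⊆ ·) U := by
      intro n m
      refine ⟨max n m, ?_, ?_⟩
      · rintro v ⟨w, hw, h1, h2⟩
        have hle : (n : ℝ) ≤ ((max n m : ℕ) : ℝ) := by exact_mod_cast le_max_left _ _
        refine ⟨w, hw, le_trans h1 hle, lt_of_lt_of_le h2 ?_⟩
        have := one_div_le_one_div_of_le (a := (n : ℝ) + 1) (by positivity)
          (add_le_add hle (le_refl (1 : ℝ)))
        linarith
      · rintro v ⟨w, hw, h1, h2⟩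
        have hle : (m : ℝ) ≤ ((max n m : ℕ) : ℝ) := by exact_mod_cast le_max_right _ _
        refine ⟨w, hw, le_trans h1 hle, lt_of_lt_of_le h2 ?_⟩
        have := one_div_le_one_div_of_le (a := (m : ℝ) + 1) (by positivity)
          (add_le_add hle (le_refl (1 : ℝ)))
        linarith
    obtain ⟨n, hn⟩ := hcomp.elim_directed_cover U hUo hcov hdir
    refine ⟨n, fun v hv => ?_⟩
    exact hn (by simpa using hv)
  obtain ⟨n, hn⟩ := huni
  set c : ℝ := 1 / ((n : ℝ) + 1) with hc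
  have hcpos : 0 < c := by positivity
  have hn' : ∀ u : E, ∃ w ∈ Sg X p q, ‖w p - p‖ ≤ n + 1 ∧ ⟪w p - p, u⟫ ≤ -c * ‖u‖ := by
    intro u
    by_cases hu : u = 0
    · obtain ⟨w0, hw0⟩ := hne
      obtain ⟨v1, hv1⟩ : ∃ v1 : E, ‖v1‖ = 1 := by
        obtain ⟨m, hm⟩ := unbounded_orbit hX hp hq hw0 0
        exact ⟨‖(w0 ^ (m + 1)) p - p‖⁻¹ • ((w0 ^ (m + 1)) p - p), by
          rw [norm_smul, norm_inv, norm_norm, inv_mul_cancel₀ hm.ne']⟩
      obtain ⟨w, hw, h1, h2⟩ := hn v1 hv1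
      exact ⟨w, hw, by linarith, by simp [hu]⟩
    · have hu' : 0 < ‖u‖ := norm_pos_iff.mpr hu
      obtain ⟨w, hw, h1, h2⟩ := hn (‖u‖⁻¹ • u) (by
        rw [norm_smul, norm_inv, norm_norm, inv_mul_cancel₀ hu'.ne'])
      refine ⟨w, hw, by linarith, ?_⟩
      rw [real_inner_smul_right] at h2
      have h3 : ‖u‖ * (‖u‖⁻¹ * ⟪w p - p, u⟫) ≤ ‖u‖ * (-c) :=
        mul_le_mul_of_nonneg_left h2.le hu'.le
      rw [← mul_assoc, mul_inv_cancel₀ hu'.ne', one_mul] at h3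
      linarith
  choose f hf1 hf2 hf3 using hn'
  let W : ℕ → E ≃ᵃⁱ[ℝ] E := fun j => Nat.rec 1 (fun _ Wj => Wj * f ((R Wj).symm (Wj p - p))) j
  have hW0 : W 0 = 1 := rfl
  have hWs : ∀ j, W (j + 1) = W j * f ((R (W j)).symm (W j p - p)) := fun j => rfl
  set M : ℝ := n + 1 with hM
  have hMpos : 0 < M := by positivity
  refine no_bounded hX hp hq W ?_ (M ^ 2 / (2 * c) + M) ?_
  · intro j
    rw [hWs, ← mul_assoc, inv_mul_cancel, one_mul]
    exact hf1 _
  · intro j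
    rw [dist_eq_norm]
    induction j with
    | zero =>
      rw [hW0, one_app, sub_self, norm_zero]
      positivity
    | succ j ih =>
      set x := W j p - p with hx
      set w := f ((R (W j)).symm x) with hw
      have h1 : W (j + 1) p - p = R (W j) (w p - p) + x := by
        rw [hWs, mul_app, R_sub, hx]
        abel
      have h2 : ⟪R (W j) (w p - p), x⟫ ≤ -c * ‖x‖ := by
        have h3 : ⟪R (W j) (w p - p), x⟫ = ⟪w p - p, (R (W j)).symm x⟫ := by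
          conv_lhs => rw [← (R (W j)).apply_symm_apply x]
          rw [(R (W j)).inner_map_map]
        rw [h3]
        have h4 := hf3 ((R (W j)).symm x)
        rwa [(R (W j)).symm.norm_map] at h4
      have h5 : ‖R (W j) (w p - p)‖ ≤ M := by
        rw [(R (W j)).norm_map]
        exact hf2 _
      rw [h1]
      by_cases hsmall : ‖x‖ ≤ M ^ 2 / (2 * c)
      · calc ‖R (W j) (w p - p) + x‖ ≤ ‖R (W j) (w p - p)‖ + ‖x‖ := norm_add_le _ _
          _ ≤ M ^ 2 / (2 * c) + M := by linarith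
      · push Not at hsmall
        have h6 : ‖R (W j) (w p - p) + x‖ ^ 2 ≤ ‖x‖ ^ 2 := by
          rw [norm_add_sq_real]
          have h7 : M ^ 2 < 2 * c * ‖x‖ := by
            rw [div_lt_iff₀ (by positivity)] at hsmall
            linarith
          have h8 : ‖R (W j) (w p - p)‖ ^ 2 ≤ M ^ 2 := by
            apply pow_le_pow_left₀ (norm_nonneg _) h5
          nlinarith
        have h9 : ‖R (W j) (w p - p) + x‖ ≤ ‖x‖ := by
          exact le_of_sq_le_sq h6 (norm_nonneg _)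
        linarith

end Pool.Agent.R795.Myc
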