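import Mathlib
import Pool.Agent.R795.Myc.A

namespace Pool.Agent.R795.Myc

open Filter Topology
open scoped RealInnerProductSpace

variable {E : Type*} [NormedAddCommGroup E] [InnerProductSpace ℝ E]

/-- The semigroup with the identity added. -/
def S1 (X : Set E) (p q : E) : Set (E ≃ᵃⁱ[ℝ] E) := {w | w ∈ Sg X p q ∨ w = 1}

theorem s1_mul {X : Set E} {p q : E} {v w : E ≃ᵃⁱ[ℝ] E} (hv : v ∈ S1 X p q)
    (hw : w ∈ S1 X p q) : v * w ∈ S1 X p q := by
  rcases hv with hv | rfl
  · rcases hw with hw | rfl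
    · exact Or.inl (sg_mul hv hw.1)
    · rw [mul_one]; exact Or.inl hv
  · rwa [one_mul]

theorem s1_mul_sg {X : Set E} {p q : E} {v w : E ≃ᵃⁱ[ℝ] E} (hv : v ∈ S1 X p q)
    (hw : w ∈ Sg X p q) : v * w ∈ Sg X p q := by
  rcases hv with hv | rfl
  · exact sg_mul hv hw.1
  · rwa [one_mul]

theorem direction [FiniteDimensional ℝ E] {X : Set E} {p q : E} (hX : Isol X) (hp : p ∈ X)
    (hq : q ∈ X) {g : E ≃ᵃⁱ[ℝ] E} (hg : g ∈ Sg X p q) {v0 : E}
    (hv0 : ∀ w ∈ Sg X p q, 0 ≤ ⟪w p - p, v0⟫) :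
    ∃ d0 : E, ‖d0‖ = 1 ∧ ∀ w ∈ S1 X p q, 0 ≤ ⟪R w d0, v0⟫ := by
  choose m hm using fun k : ℕ => unbounded_orbit hX hp hq hg ((k : ℝ) + 1)
  set y : ℕ → E := fun k => (g ^ (m k + 1)) p - p with hy
  have hypos : ∀ k, 0 < ‖y k‖ := fun k => lt_trans (by positivity) (hm k)
  have hu : ∀ k, (‖y k‖⁻¹ • y k) ∈ Metric.sphere (0 : E) 1 := by
    intro k
    rw [mem_sphere_zero_iff_norm, norm_smul, norm_inv, norm_norm, inv_mul_cancel₀ (hypos k).ne']
  obtain ⟨d0, hd0, φ, hφ, hlim⟩ := (isCompact_sphere (0 : E) 1).tendsto_subseq hu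
  refine ⟨d0, by simpa using hd0, ?_⟩
  intro w hw
  set C : ℝ := |⟪w p - p, v0⟫| with hC
  have hlow : ∀ k : ℕ, -(C / ((k : ℝ) + 1)) ≤ ⟪R w (‖y k‖⁻¹ • y k), v0⟫ := by
    intro k
    have h1 : R w (y k) = ((w * g ^ (m k + 1)) p - p) - (w p - p) := by
      rw [hy, R_sub, mul_app]
      abel
    rw [map_smul, real_inner_smul_left, h1, inner_sub_left]
    have h2 := hv0 _ (s1_mul_sg hw (sg_pow hg (m k)))
    have h3 : ⟪w p - p, v0⟫ ≤ C := le_abs_self _
    have h4 : -C ≤ ⟪(w * g ^ (m k + 1)) p - p, v0⟫ - ⟪w p - p, v0⟫ := by linarith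
    have h5 : ‖y k‖⁻¹ ≤ ((k : ℝ) + 1)⁻¹ := by
      apply inv_anti₀ (by positivity)
      exact (hm k).le
    have h6 : 0 ≤ ‖y k‖⁻¹ := by positivity
    have h7 : 0 ≤ C := abs_nonneg _
    calc -(C / ((k : ℝ) + 1)) = -(((k : ℝ) + 1)⁻¹ * C) := by rw [div_eq_mul_inv]; ring
      _ ≤ -(‖y k‖⁻¹ * C) := by
        have := mul_le_mul_of_nonneg_right h5 h7
        linarith
      _ = ‖y k‖⁻¹ * (-C) := by ring
      _ ≤ _ := mul_le_mul_of_nonneg_left h4 h6
  have ht1 : Tendsto (fun k : ℕ => -(C / ((φ k : ℝ) + 1))) atTop (𝓝 0) := by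
    have h0 : Tendsto (fun k : ℕ => -(C / ((k : ℝ) + 1))) atTop (𝓝 (-(0 : ℝ))) := by
      apply Tendsto.neg
      exact tendsto_const_div_atTop_nhds_zero_nat C |>.comp (tendsto_add_atTop_nat 1) |>.congr
        (fun k => by simp)
    rw [neg_zero] at h0
    exact h0.comp hφ.tendsto_atTop
  have ht2 : Tendsto (fun k : ℕ => ⟪R w (‖y (φ k)‖⁻¹ • y (φ k)), v0⟫) atTop
      (𝓝 ⟪R w d0, v0⟫) := by
    have hcont : Continuous fun z : E => ⟪R w z, v0⟫ := by
      have := (R w).continuous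
      fun_prop
    exact (hcont.tendsto d0).comp hlim
  exact le_of_tendsto_of_tendsto' ht1 ht2 (fun k => hlow (φ k))

theorem invariant_cases [FiniteDimensional ℝ E] {X : Set E} {p q : E} {v0 d0 : E}
    (hd1 : ‖d0‖ = 1) (hd : ∀ w ∈ S1 X p q, 0 ≤ ⟪R w d0, v0⟫) (hv : ‖v0‖ = 1) :
    (∃ c : E, c ≠ 0 ∧ ∀ g ∈ Sg X p q, R g c = c) ∨
    (∃ N : Submodule ℝ E, N ≠ ⊥ ∧ N ≠ ⊤ ∧ ∀ g ∈ Sg X p q, ∀ z ∈ N, R g z ∈ N) := by
  set A : Set E := (fun w => R w d0) '' S1 X p q with hA
  have hone : (1 : E ≃ᵃⁱ[ℝ] E) ∈ S1 X p q := Or.inr rfl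
  have hAne : A.Nonempty := ⟨_, 1, hone, rfl⟩
  set C : Set E := closure (convexHull ℝ A) with hC
  have hCconv : Convex ℝ C := (convex_convexHull ℝ A).closure
  have hCcl : IsClosed C := isClosed_closure
  have hCne : C.Nonempty := hAne.mono ((subset_convexHull ℝ A).trans subset_closure)
  obtain ⟨c, hcC, hcmin⟩ := exists_norm_eq_iInf_of_complete_convex hCne hCcl.isComplete hCconv 0
  have hinner := (norm_eq_iInf_iff_real_inner_le_zero hCconv hcC).1 hcmin
  have hCinv : ∀ g ∈ Sg X p q, ∀ z ∈ C, R g z ∈ C := by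
    intro g hg z hz
    have h1 : Set.MapsTo (R g) (convexHull ℝ A) (convexHull ℝ A) := by
      intro x hx
      have h2 : (R g) '' (convexHull ℝ A) = convexHull ℝ ((R g) '' A) :=
        (R g).toLinearEquiv.toLinearMap.image_convexHull A
      have h3 : R g x ∈ convexHull ℝ ((R g) '' A) := by
        rw [← h2]; exact ⟨x, hx, rfl⟩
      refine convexHull_mono ?_ h3
      rintro _ ⟨_, ⟨w, hw, rfl⟩, rfl⟩
      exact ⟨g * w, s1_mul (Or.inl hg) hw, R_mul g w d0⟩
    exact h1.closure (R g).continuous hz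
  by_cases hc0 : c = 0
  · right
    subst hc0
    refine ⟨⨅ w ∈ S1 X p q, (LinearMap.ker ((innerSL ℝ v0).toLinearMap.comp
      (R w).toLinearEquiv.toLinearMap)), ?_, ?_, ?_⟩
    · intro hbot
      have hN : ∀ z : E, (∀ w ∈ S1 X p q, ⟪R w z, v0⟫ = 0) → z = 0 := by
        intro z hz
        have : z ∈ (⊥ : Submodule ℝ E) := by
          rw [← hbot]
          simp only [Submodule.mem_iInf, LinearMap.mem_ker]
          intro w hw
          have := hz w hw
          rw [real_inner_comm] at this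
          simpa using this
        simpa using this
      set Q : Set E := Metric.sphere (0 : E) 1 ∩ {z | ∀ w ∈ S1 X p q, 0 ≤ ⟪R w z, v0⟫} with hQ
      have hcontw : ∀ w : E ≃ᵃⁱ[ℝ] E, Continuous fun z : E => ⟪R w z, v0⟫ := by
        intro w
        have := (R w).continuous
        fun_prop
      have hQc : IsCompact Q := by
        apply (isCompact_sphere (0 : E) 1).inter_right
        have : {z : E | ∀ w ∈ S1 X p q, 0 ≤ ⟪R w z, v0⟫} =
            ⋂ w ∈ S1 X p q, {z : E | 0 ≤ ⟪R w z, v0⟫} := by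
          ext z; simp
        rw [this]
        exact isClosed_biInter fun w _ => isClosed_le continuous_const (hcontw w)
      have hAQ : A ⊆ Q := by
        rintro _ ⟨w, hw, rfl⟩
        refine ⟨by simp [hd1], fun w' hw' => ?_⟩
        rw [← R_mul]
        exact hd _ (s1_mul hw' hw)
      obtain ⟨T, hT⟩ := hQc.elim_finite_subcover (fun w : S1 X p q => {z : E | 0 < ⟪R w.1 z, v0⟫})
        (fun w => isOpen_lt continuous_const (hcontw w.1)) (by
          intro z hz
          by_contra hcon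
          simp only [Set.mem_iUnion, Set.mem_ofPred_eq, not_exists, not_lt] at hcon
          have hz0 : z = 0 := hN z fun w hw => le_antisymm (hcon ⟨w, hw⟩) (hz.2 w hw)
          have := hz.1
          rw [hz0] at this
          simp at this)
      set ψ : E → ℝ := fun z => ∑ w ∈ T, ⟪R w.1 z, v0⟫ with hψ
      have hψc : Continuous ψ := continuous_finsetSum _ fun w _ => hcontw w.1
      obtain ⟨z0, hz0, hmin⟩ := hQc.exists_isMinOn (hAne.mono hAQ) hψc.continuousOn
      have hδ : 0 < ψ z0 := by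
        have hz0' := hT hz0
        simp only [Set.mem_iUnion, Set.mem_ofPred_eq] at hz0'
        obtain ⟨w, hwT, hw⟩ := hz0'
        exact Finset.sum_pos' (fun w' _ => hz0.2 w'.1 w'.2) ⟨w, hwT, hw⟩
      have hlin : IsLinearMap ℝ ψ := by
        constructor
        · intro x y
          simp only [hψ, map_add, inner_add_left, Finset.sum_add_distrib]
        · intro a x
          simp only [hψ, map_smul, real_inner_smul_left, smul_eq_mul, Finset.mul_sum]
      have hsub : C ⊆ {z | ψ z0 ≤ ψ z} := by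
        apply closure_minimal
        · apply convexHull_min
          · intro z hz
            exact hmin (hAQ hz)
          · exact convex_halfSpace_ge hlin _
        · exact isClosed_le continuous_const hψc
      have h0 := hsub hcC
      have : ψ 0 = 0 := hlin.map_zero
      simp only [Set.mem_ofPred_eq, this] at h0
      linarith
    · intro htop
      have : v0 ∈ (⊤ : Submodule ℝ E) := trivial
      rw [← htop] at this
      simp only [Submodule.mem_iInf, LinearMap.mem_ker] at this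
      have h1 := this 1 hone
      have h2 : ⟪v0, v0⟫ = 0 := by
        have h3 : R (1 : E ≃ᵃⁱ[ℝ] E) v0 = v0 := R_one v0
        simpa [h3] using h1
      rw [real_inner_self_eq_norm_sq, hv] at h2
      norm_num at h2
    · intro g hg z hz
      simp only [Submodule.mem_iInf, LinearMap.mem_ker] at hz ⊢
      intro w hw
      have := hz (w * g) (Or.inl (s1_mul_sg hw hg))
      have h3 : R (w * g) z = R w (R g z) := R_mul w g z
      simpa [h3] using this
  · left
    refine ⟨c, hc0, fun g hg => ?_⟩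
    have h1 := hinner (R g c) (hCinv g hg c hcC)
    rw [zero_sub, inner_neg_left, inner_sub_right, real_inner_self_eq_norm_sq] at h1
    have h2 : ‖R g c - c‖ ^ 2 ≤ 0 := by
      rw [norm_sub_sq_real, (R g).norm_map, real_inner_comm]
      linarith
    have h3 : ‖R g c - c‖ = 0 := by
      have := sq_nonneg ‖R g c - c‖
      exact pow_eq_zero_iff (two_ne_zero) |>.1 (le_antisymm h2 this)
    exact sub_eq_zero.1 (norm_eq_zero.1 h3)

/-- A line or plane invariant under `A` gives a unit eigenvector. -/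
theorem line_of_finrank_one {A : E ≃ₗᵢ[ℝ] E} {N : Submodule ℝ E} (h1 : Module.finrank ℝ N = 1)
    (hA : ∀ z ∈ N, A z ∈ N) {u : E} (hu : u ∈ N) (hu1 : ‖u‖ = 1) : A u = u ∨ A u = -u := by
  have hu0 : (⟨u, hu⟩ : N) ≠ 0 := by
    intro h
    have : u = 0 := congrArg Subtype.val h
    rw [this] at hu1
    simp at hu1
  obtain ⟨c, hc⟩ := exists_smul_eq_of_finrank_eq_one h1 hu0 ⟨A u, hA u hu⟩
  have hc' : c • u = A u := congrArg Subtype.val hc
  have hn : ‖c • u‖ = 1 := by rw [hc', A.norm_map, hu1]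
  rw [norm_smul, hu1, mul_one, Real.norm_eq_abs] at hn
  rcases (abs_eq zero_le_one).1 hn with h | h
  · left; rw [← hc', h, one_smul]
  · right; rw [← hc', h, neg_smul, one_smul]

theorem orth_invariant [FiniteDimensional ℝ E] {A : E ≃ₗᵢ[ℝ] E} {N : Submodule ℝ E}
    (hA : ∀ z ∈ N, A z ∈ N) : ∀ z ∈ Nᗮ, A z ∈ Nᗮ := by
  intro z hz
  rw [Submodule.mem_orthogonal] at hz ⊢
  have hmap : Submodule.map A.toLinearEquiv.toLinearMap N = N := by
    apply Submodule.eq_of_le_of_finrank_eq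
    · rintro _ ⟨x, hx, rfl⟩
      exact hA x hx
    · exact LinearEquiv.finrank_map_eq A.toLinearEquiv N
  intro n hn
  rw [← hmap] at hn
  obtain ⟨n', hn', rfl⟩ := hn
  have := A.inner_map_map n' z
  rw [hz n' hn'] at this
  exact this

theorem common_axis [FiniteDimensional ℝ E] (h3 : Module.finrank ℝ E = 3) {X : Set E} {p q : E}
    (hX : Isol X) (hp : p ∈ X) (hq : q ∈ X) (hne : (Sg X p q).Nonempty) :
    ∃ u : E, ‖u‖ = 1 ∧ ∀ g ∈ Sg X p q, R g u = u ∨ R g u = -u := by
  obtain ⟨v0, hv01, hv0⟩ := steering hX hp hq hne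
  obtain ⟨g0, hg0⟩ := hne
  obtain ⟨d0, hd01, hd0⟩ := direction hX hp hq hg0 hv0
  rcases invariant_cases hd01 hd0 hv01 with ⟨c, hc0, hc⟩ | ⟨N, hbot, htop, hN⟩
  · refine ⟨‖c‖⁻¹ • c, ?_, fun g hg => Or.inl ?_⟩
    · rw [norm_smul, norm_inv, norm_norm, inv_mul_cancel₀ (norm_ne_zero_iff.2 hc0)]
    · rw [map_smul, hc g hg]
  · have hunit : ∀ M : Submodule ℝ E, Module.finrank ℝ M = 1 → ∃ u ∈ M, ‖u‖ = 1 := by
      intro M hM
      have hMne : M ≠ ⊥ := by
        intro h; rw [h] at hM; simp at hM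
      obtain ⟨x, hxM, hx0⟩ := Submodule.exists_mem_ne_zero_of_ne_bot hMne
      refine ⟨‖x‖⁻¹ • x, M.smul_mem _ hxM, ?_⟩
      rw [norm_smul, norm_inv, norm_norm, inv_mul_cancel₀ (norm_ne_zero_iff.2 hx0)]
    have hr1 : 0 < Module.finrank ℝ N := by
      rw [Nat.pos_iff_ne_zero]
      intro h
      exact hbot (Submodule.finrank_eq_zero.1 h)
    have hr2 : Module.finrank ℝ N < 3 := by
      rw [← h3]; exact Submodule.finrank_lt htop
    have hr3 := Submodule.finrank_add_finrank_orthogonal N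
    have hcase : Module.finrank ℝ N = 1 ∨ Module.finrank ℝ Nᗮ = 1 := by omega
    rcases hcase with h | h
    · obtain ⟨u, hu, hu1⟩ := hunit N h
      exact ⟨u, hu1, fun g hg => line_of_finrank_one h (hN g hg) hu hu1⟩
    · obtain ⟨u, hu, hu1⟩ := hunit Nᗮ h
      exact ⟨u, hu1, fun g hg => line_of_finrank_one h (orth_invariant (hN g hg)) hu hu1⟩

end Pool.Agent.R795.Myc
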