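import Mathlib
import Pool.Agent.R795.Myc.B

namespace Pool.Agent.R795.Myc

open Filter Topology
open scoped RealInnerProductSpace

variable {E : Type*} [NormedAddCommGroup E] [InnerProductSpace ℝ E]

theorem square_form (A : E ≃ₗᵢ[ℝ] E) (b : OrthonormalBasis (Fin 3) ℝ E)
    (h : A (b 0) = b 0 ∨ A (b 0) = -b 0) :
    A (A (b 0)) = b 0 ∧ ∃ α β : ℝ, A (A (b 1)) = α • b 1 + β • b 2 ∧
      A (A (b 2)) = (-β) • b 1 + α • b 2 := by
  have h0 : A (A (b 0)) = b 0 := by
    rcases h with h | h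
    · rw [h, h]
    · rw [h, map_neg, h, neg_neg]
  refine ⟨h0, ?_⟩
  have horth : ∀ i j : Fin 3, ⟪b i, b j⟫ = if i = j then 1 else 0 := fun i j =>
    orthonormal_iff_ite.1 b.orthonormal i j
  have hz : ∀ i : Fin 3, i ≠ 0 → ⟪b 0, A (b i)⟫ = 0 := by
    intro i hi
    have h1 : ⟪A (b 0), A (b i)⟫ = 0 := by
      rw [A.inner_map_map, horth, if_neg hi.symm]
    rcases h with h | h
    · rwa [h] at h1
    · rw [h, inner_neg_left] at h1; linarith
  have hrep : ∀ i : Fin 3, i ≠ 0 → A (b i) = ⟪b 1, A (b i)⟫ • b 1 + ⟪b 2, A (b i)⟫ • b 2 := by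
    intro i hi
    have := b.sum_repr' (A (b i))
    rw [Fin.sum_univ_three, hz i hi, zero_smul, zero_add] at this
    exact this.symm
  obtain ⟨a, ha⟩ : ∃ a, a = ⟪b 1, A (b 1)⟫ := ⟨_, rfl⟩
  obtain ⟨c, hc⟩ : ∃ a, a = ⟪b 2, A (b 1)⟫ := ⟨_, rfl⟩
  obtain ⟨e, he⟩ : ∃ a, a = ⟪b 1, A (b 2)⟫ := ⟨_, rfl⟩
  obtain ⟨d, hd⟩ : ∃ a, a = ⟪b 2, A (b 2)⟫ := ⟨_, rfl⟩
  have r1 := hrep 1 (by decide)
  have r2 := hrep 2 (by decide)
  rw [← ha, ← hc] at r1
  rw [← he, ← hd] at r2
  have key : ∀ x y z w : ℝ, ⟪x • b 1 + y • b 2, z • b 1 + w • b 2⟫ = x * z + y * w := by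
    intro x y z w
    simp only [inner_add_left, inner_add_right, real_inner_smul_left, real_inner_smul_right,
      horth]
    simp
    ring
  have e1 : a * a + c * c = 1 := by
    rw [← key, ← r1, A.inner_map_map, horth]; simp
  have e2 : e * e + d * d = 1 := by
    rw [← key, ← r2, A.inner_map_map, horth]; simp
  have e3 : a * e + c * d = 0 := by
    rw [← key, ← r1, ← r2, A.inner_map_map, horth]; simp
  set s := a * d - c * e with hs
  have hss : s * s = 1 := by
    have : s * s = (a * a + c * c) * (e * e + d * d) - (a * e + c * d) ^ 2 := by rw [hs]; ring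
    rw [this, e1, e2, e3]; ring
  have he' : e = -(c * s) := by
    have : e = e * (a * a + c * c) := by rw [e1, mul_one]
    rw [this, hs]
    have : e * (a * a + c * c) = a * (a * e + c * d) - a * c * d + e * c * c := by ring
    rw [this, e3]; ring
  have hd' : d = a * s := by
    have : d = d * (a * a + c * c) := by rw [e1, mul_one]
    rw [this, hs]
    have : d * (a * a + c * c) = a * a * d + c * (a * e + c * d) - c * a * e := by ring
    rw [this, e3]; ring
  refine ⟨a * a - s * c * c, a * c * (1 + s), ?_, ?_⟩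
  · rw [r1, map_add, map_smul, map_smul, r1, r2, he', hd']
    module
  · rw [r2, map_add, map_smul, map_smul, r1, r2, he', hd']
    have h1 : (-(c * s)) • (a • b 1 + c • b 2) + (a * s) • ((-(c * s)) • b 1 + (a * s) • b 2) =
        (-(c * s) * a - (s * s) * a * c) • b 1 + (-(c * s) * c + (s * s) * (a * a)) • b 2 := by
      module
    rw [h1, hss]
    module

theorem squares_commute (A B : E ≃ₗᵢ[ℝ] E) (b : OrthonormalBasis (Fin 3) ℝ E)
    (hA : A (b 0) = b 0 ∨ A (b 0) = -b 0) (hB : B (b 0) = b 0 ∨ B (b 0) = -b 0) (x : E) :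
    A (A (B (B x))) = B (B (A (A x))) := by
  obtain ⟨a0, α, β, a1, a2⟩ := square_form A b hA
  obtain ⟨b0, γ, δ, b1, b2⟩ := square_form B b hB
  have hlin : ((A.toLinearEquiv.toLinearMap.comp A.toLinearEquiv.toLinearMap).comp
      (B.toLinearEquiv.toLinearMap.comp B.toLinearEquiv.toLinearMap)) =
      ((B.toLinearEquiv.toLinearMap.comp B.toLinearEquiv.toLinearMap).comp
      (A.toLinearEquiv.toLinearMap.comp A.toLinearEquiv.toLinearMap)) := by
    apply b.toBasis.ext
    intro i
    simp only [OrthonormalBasis.coe_toBasis, LinearMap.comp_apply]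
    change A (A (B (B (b i)))) = B (B (A (A (b i))))
    fin_cases i
    · change A (A (B (B (b 0)))) = B (B (A (A (b 0))))
      rw [a0, b0, a0]
    · change A (A (B (B (b 1)))) = B (B (A (A (b 1))))
      rw [a1, b1]
      simp only [map_add, map_smul, a1, a2, b1, b2]
      module
    · change A (A (B (B (b 2)))) = B (B (A (A (b 2))))
      rw [a2, b2]
      simp only [map_add, map_smul, a1, a2, b1, b2]
      module
  exact congrArg (fun f : E →ₗ[ℝ] E => f x) hlin

theorem exists_basis (h3 : Module.finrank ℝ E = 3) [FiniteDimensional ℝ E] {u : E}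
    (hu : ‖u‖ = 1) : ∃ b : OrthonormalBasis (Fin 3) ℝ E, b 0 = u := by
  have hcard : Module.finrank ℝ E = Fintype.card (Fin 3) := by simpa using h3
  have hv : Orthonormal ℝ (({0} : Set (Fin 3)).domRestrict (fun _ => u)) := by
    constructor
    · intro i; exact hu
    · intro i j hij
      exact absurd (Subsingleton.elim i j) hij
  obtain ⟨b, hb⟩ := hv.exists_orthonormalBasis_extension_of_card_eq hcard
  exact ⟨b, hb 0 rfl⟩

end Pool.Agent.R795.Myc
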