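import Mathlib
import Pool.Agent.R795.Myc.C

namespace Pool.Agent.R795.Myc

open Filter Topology
open scoped RealInnerProductSpace

set_option linter.unusedSectionVars false

variable {E : Type*} [NormedAddCommGroup E] [InnerProductSpace ℝ E]

/-- Commensurable sets. -/
def Cm (A B : Set E) : Prop := (A \ B).Finite ∧ (B \ A).Finite

/-- The relative size of two commensurable sets. -/
noncomputable def dd (A B : Set E) : ℤ := ((A \ B).ncard : ℤ) - ((B \ A).ncard : ℤ)

theorem Cm.symm {A B : Set E} (h : Cm A B) : Cm B A := ⟨h.2, h.1⟩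

theorem Cm.trans {A B C : Set E} (h1 : Cm A B) (h2 : Cm B C) : Cm A C := by
  constructor
  · refine (h1.1.union h2.1).subset ?_
    intro x hx
    by_cases hB : x ∈ B
    · exact Or.inr ⟨hB, hx.2⟩
    · exact Or.inl ⟨hx.1, hB⟩
  · refine (h1.2.union h2.2).subset ?_
    intro x hx
    by_cases hB : x ∈ B
    · exact Or.inl ⟨hB, hx.2⟩
    · exact Or.inr ⟨hx.1, hB⟩

theorem Cm.refl (A : Set E) : Cm A A := by
  constructor <;> simp

theorem dd_symm (A B : Set E) : dd B A = -dd A B := by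
  unfold dd; ring

theorem dd_self (A : Set E) : dd A A = 0 := by
  unfold dd; ring

theorem dd_trans {A B C : Set E} (h1 : Cm A B) (h2 : Cm B C) : dd A B + dd B C = dd A C := by
  have h3 := h1.trans h2
  have s1 := Set.ncard_inter_add_ncard_sdiff_eq_ncard (A \ B) C h1.1
  have s2 := Set.ncard_inter_add_ncard_sdiff_eq_ncard (B \ A) C h1.2
  have s3 := Set.ncard_inter_add_ncard_sdiff_eq_ncard (B \ C) A h2.1
  have s4 := Set.ncard_inter_add_ncard_sdiff_eq_ncard (C \ B) A h2.2
  have s5 := Set.ncard_inter_add_ncard_sdiff_eq_ncard (A \ C) B h3.1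
  have s6 := Set.ncard_inter_add_ncard_sdiff_eq_ncard (C \ A) B h3.2
  have t1 : (A \ B) ∩ C = (C \ B) ∩ A := by ext; simp; tauto
  have t2 : (B \ A) ∩ C = (C \ A) ∩ B := by ext; simp; tauto
  have t3 : (B \ C) ∩ A = (A \ C) ∩ B := by ext; simp; tauto
  have t4 : (A \ B) \ C = (A \ C) \ B := by ext; simp; tauto
  have t5 : (B \ A) \ C = (B \ C) \ A := by ext; simp; tauto
  have t6 : (C \ B) \ A = (C \ A) \ B := by ext; simp; tauto
  rw [t1, t4] at s1
  rw [t2, t5] at s2
  rw [t3] at s3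
  rw [t6] at s4
  unfold dd
  omega

theorem inj (v : E ≃ᵃⁱ[ℝ] E) : Function.Injective v := v.injective

theorem Cm.image {A B : Set E} (h : Cm A B) (v : E ≃ᵃⁱ[ℝ] E) : Cm (v '' A) (v '' B) := by
  constructor
  · rw [← Set.image_sdiff (inj v)]; exact h.1.image _
  · rw [← Set.image_sdiff (inj v)]; exact h.2.image _

theorem dd_image (A B : Set E) (v : E ≃ᵃⁱ[ℝ] E) : dd (v '' A) (v '' B) = dd A B := by
  unfold dd
  rw [← Set.image_sdiff (inj v), ← Set.image_sdiff (inj v), Set.ncard_image_of_injective _ (inj v),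
    Set.ncard_image_of_injective _ (inj v)]

theorem mul_image (v w : E ≃ᵃⁱ[ℝ] E) (A : Set E) : (v * w) '' A = v '' (w '' A) := by
  rw [Set.image_image]; rfl

theorem one_image (A : Set E) : (1 : E ≃ᵃⁱ[ℝ] E) '' A = A := by
  ext x; simp [one_app]

/-- The isometries almost preserving `X`. -/
def K (X : Set E) : Subgroup (E ≃ᵃⁱ[ℝ] E) where
  carrier := {v | Cm X (v '' X)}
  mul_mem' := by
    intro v w hv hw
    change Cm X ((v * w) '' X)
    rw [mul_image]
    exact Cm.trans hv (Cm.image hw v)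
  one_mem' := by
    change Cm X ((1 : E ≃ᵃⁱ[ℝ] E) '' X)
    rw [one_image]; exact Cm.refl X
  inv_mem' := by
    intro v hv
    change Cm X ((v⁻¹ : E ≃ᵃⁱ[ℝ] E) '' X)
    have h := Cm.image hv v⁻¹
    rw [← mul_image, inv_mul_cancel, one_image] at h
    exact h.symm

/-- The index homomorphism. -/
noncomputable def idx (X : Set E) : K X →* Multiplicative ℤ where
  toFun v := Multiplicative.ofAdd (dd X (v.1 '' X))
  map_one' := by
    change Multiplicative.ofAdd (dd X ((1 : E ≃ᵃⁱ[ℝ] E) '' X)) = 1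
    rw [one_image, dd_self]; rfl
  map_mul' v w := by
    change Multiplicative.ofAdd (dd X ((v.1 * w.1) '' X)) = _
    rw [← ofAdd_add]
    congr 1
    rw [mul_image, ← dd_trans v.2 (Cm.image w.2 v.1), dd_image]

theorem idx_eq (X : Set E) (v : K X) : (idx X v).toAdd = dd X (v.1 '' X) := rfl

theorem dd_zero_of_invariant {X X0 : Set E} (h : Cm X X0) (v : E ≃ᵃⁱ[ℝ] E)
    (hv : v '' X0 = X0) : dd X (v '' X) = 0 := by
  have h1 : dd X (v '' X) = dd X X0 + dd X0 (v '' X) := by
    rw [dd_trans h]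
    have := (Cm.image h v).symm
    rwa [hv] at this
  have h2 : dd X0 (v '' X) = dd X0 X := by
    conv_lhs => rw [← hv]
    exact dd_image X0 X v
  rw [h1, h2, dd_symm X X0]
  ring

theorem recurrence [FiniteDimensional ℝ E] (v : E ≃ᵃⁱ[ℝ] E) {z : E} (hz : v z = z) (x : E)
    {ε : ℝ} (hε : 0 < ε) : ∃ m : ℕ, dist ((v ^ (m + 1)) x) x < ε := by
  have hz' : ∀ j : ℕ, (v ^ j) z = z := by
    intro j
    induction j with
    | zero => rfl
    | succ j ih => rw [pow_succ, mul_app, hz, ih]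
  have hmem : ∀ j : ℕ, (v ^ j) x ∈ Metric.closedBall z (dist x z) := by
    intro j
    rw [Metric.mem_closedBall]
    calc dist ((v ^ j) x) z = dist ((v ^ j) x) ((v ^ j) z) := by rw [hz' j]
      _ = dist x z := (v ^ j).dist_map _ _
      _ ≤ dist x z := le_rfl
  obtain ⟨a, -, φ, hφ, ha⟩ := tendsto_subseq_of_bounded Metric.isBounded_closedBall hmem
  have hc := ha.cauchySeq
  rw [Metric.cauchySeq_iff] at hc
  obtain ⟨N, hN⟩ := hc ε hε
  have hlt := hφ (Nat.lt_succ_self N)
  obtain ⟨k, hk⟩ := Nat.exists_eq_add_of_lt hlt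
  have hd := hN (N + 1) (by omega) N (by omega)
  simp only [Function.comp] at hd
  refine ⟨k, ?_⟩
  rw [hk, show φ N + k + 1 = φ N + (k + 1) by ring, pow_add, mul_app, (v ^ (φ N)).dist_map] at hd
  exact hd

theorem index_fixed [FiniteDimensional ℝ E] {X : Set E} (hX : Isol X) (v : E ≃ᵃⁱ[ℝ] E) {z : E}
    (hz : v z = z) (h : Cm X (v '' X)) : dd X (v '' X) ≤ 0 := by
  have hex : ∀ x ∈ X \ v '' X, ∃ k : ℕ, (v ^ (k + 1)) x ∉ X := by
    intro x hx
    by_contra hcon
    push Not at hcon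
    obtain ⟨ε, hε, hiso⟩ := hX x hx.1
    obtain ⟨m, hm⟩ := recurrence v hz x hε
    have heq := hiso _ (hcon m) hm
    apply hx.2
    refine ⟨(v ^ m) x, ?_, ?_⟩
    · cases m with
      | zero => exact hx.1
      | succ m => exact hcon m
    · rw [← mul_app, ← pow_succ']
      exact heq
  classical
  let kk : E → ℕ := fun x => if hx : x ∈ X \ v '' X then Nat.find (hex x hx) else 0
  have hkk : ∀ x ∈ X \ v '' X, (v ^ (kk x + 1)) x ∉ X := by
    intro x hx
    simp only [kk, dif_pos hx]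
    exact Nat.find_spec (hex x hx)
  have hkk' : ∀ x ∈ X \ v '' X, ∀ m ≤ kk x, (v ^ m) x ∈ X := by
    intro x hx m hm
    cases m with
    | zero => exact hx.1
    | succ m =>
      simp only [kk, dif_pos hx] at hm
      by_contra hcon
      exact Nat.find_min (hex x hx) (m := m) (by omega) hcon
  have hle : (X \ v '' X).ncard ≤ (v '' X \ X).ncard := by
    apply Set.ncard_le_ncard_of_injOn (fun x => (v ^ (kk x + 1)) x) ?_ ?_ h.2
    · intro x hx
      refine ⟨⟨(v ^ kk x) x, hkk' x hx _ le_rfl, ?_⟩, hkk x hx⟩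
      rw [← mul_app, ← pow_succ']
    · have main : ∀ x ∈ X \ v '' X, ∀ y ∈ X \ v '' X, kk x ≤ kk y →
          (v ^ (kk x + 1)) x = (v ^ (kk y + 1)) y → x = y := by
        intro x hx y hy hle hxy
        obtain ⟨d, hd⟩ := Nat.exists_eq_add_of_le hle
        have hxy2 : (v ^ (kk x + 1)) x = (v ^ (kk x + 1)) ((v ^ d) y) := by
          rw [hxy, ← mul_app, ← pow_add, hd]
          congr 2
          ring
        have hxy' := inj _ hxy2
        cases d with
        | zero => exact hxy'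
        | succ d =>
          exfalso
          apply hx.2
          refine ⟨(v ^ d) y, hkk' y hy d (by omega), ?_⟩
          rw [← mul_app, ← pow_succ', hxy']
      intro x hx y hy hxy
      rcases le_total (kk x) (kk y) with h1 | h1
      · exact main x hx y hy h1 hxy
      · exact (main y hy x hx h1 hxy.symm).symm
  unfold dd
  omega

theorem mem_iff_of_not {X : Set E} {a : E ≃ᵃⁱ[ℝ] E} {F : Set E}
    (hF : X \ a '' X ∪ a '' X \ X ⊆ F) {y : E} (hy : a y ∉ F) : a y ∈ X ↔ y ∈ X := by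
  constructor
  · intro h
    by_contra hc
    apply hy
    apply hF
    left
    refine ⟨h, ?_⟩
    rintro ⟨y', hy', he⟩
    exact hc (inj a he ▸ hy')
  · intro h
    by_contra hc
    apply hy
    apply hF
    right
    exact ⟨⟨y, h, rfl⟩, hc⟩

theorem z2 (X : Set E) (a b : E ≃ᵃⁱ[ℝ] E) (hab : a * b = b * a)
    (hfree : ∀ (m n : ℤ) (x : E), (a ^ m * b ^ n) x = x → m = 0 ∧ n = 0)
    (ha : Cm X (a '' X)) (hb : Cm X (b '' X)) :
    ∃ X0 : Set E, a '' X0 = X0 ∧ b '' X0 = X0 ∧ Cm X X0 := by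
  have hcomm : Commute a b := hab
  set F : Set E := (X \ a '' X ∪ a '' X \ X) ∪ (X \ b '' X ∪ b '' X \ X) with hF
  have hFfin : F.Finite := (ha.1.union ha.2).union (hb.1.union hb.2)
  have hFa : X \ a '' X ∪ a '' X \ X ⊆ F := Set.subset_union_left
  have hFb : X \ b '' X ∪ b '' X \ X ⊆ F := Set.subset_union_right
  have hpow_inj : ∀ x : E, Function.Injective fun n : ℕ => (a ^ n) x := by
    intro x m n hmn
    have h1 : (a ^ ((m : ℤ) - n) * b ^ (0 : ℤ)) x = x := by
      have h2 : (a ^ n)⁻¹ ((a ^ m) x) = x := by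
        have hmn' : (a ^ m) x = (a ^ n) x := hmn
        rw [hmn', inv_app]
      rw [← mul_app] at h2
      have h3 : a ^ ((m : ℤ) - n) * b ^ (0 : ℤ) = (a ^ n)⁻¹ * a ^ m := by
        rw [zpow_zero, mul_one, sub_eq_neg_add, zpow_add, zpow_neg, zpow_natCast, zpow_natCast]
      rw [h3]; exact h2
    have := (hfree _ _ _ h1).1
    omega
  set X0 : Set E := {x | ∀ᶠ n : ℕ in atTop, (a ^ n) x ∈ X} with hX0
  have hX0a : ∀ x, a x ∈ X0 ↔ x ∈ X0 := by
    intro x
    simp only [hX0, Set.mem_ofPred_eq, ← mul_app, ← pow_succ]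
    constructor
    · intro h
      rw [eventually_atTop] at h ⊢
      obtain ⟨N, hN⟩ := h
      refine ⟨N + 1, fun n hn => ?_⟩
      obtain ⟨m, rfl⟩ : ∃ m, n = m + 1 := ⟨n - 1, by omega⟩
      exact hN m (by omega)
    · intro h
      rw [eventually_atTop] at h ⊢
      obtain ⟨N, hN⟩ := h
      exact ⟨N, fun n hn => hN (n + 1) (by omega)⟩
  have hX0b : ∀ x, b x ∈ X0 ↔ x ∈ X0 := by
    intro x
    have hev : ∀ᶠ n : ℕ in atTop, (a ^ n) (b x) ∉ F := by
      rw [← Nat.cofinite_eq_atTop]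
      exact (hpow_inj (b x)).tendsto_cofinite.eventually hFfin.compl_mem_cofinite
    have hev' : ∀ᶠ n : ℕ in atTop, ((a ^ n) (b x) ∈ X ↔ (a ^ n) x ∈ X) := by
      filter_upwards [hev] with n hn
      have h1 : (a ^ n) (b x) = b ((a ^ n) x) := by
        rw [← mul_app, ← mul_app, (hcomm.pow_left n).eq]
      rw [h1] at hn ⊢
      exact mem_iff_of_not hFb hn
    exact eventually_congr hev'
  have hinv : ∀ c : E ≃ᵃⁱ[ℝ] E, (∀ x, c x ∈ X0 ↔ x ∈ X0) → c '' X0 = X0 := by
    intro c hc
    ext y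
    constructor
    · rintro ⟨x, hx, rfl⟩
      exact (hc x).2 hx
    · intro hy
      refine ⟨c⁻¹ y, ?_, app_inv c y⟩
      rw [← hc, app_inv]
      exact hy
  have claim1 : ∀ x, ¬ (x ∈ X ↔ x ∈ X0) → ∃ n : ℕ, (a ^ (n + 1)) x ∈ F := by
    intro x hx
    by_contra hcon
    push Not at hcon
    have hiff : ∀ n : ℕ, (a ^ n) x ∈ X ↔ x ∈ X := by
      intro n
      induction n with
      | zero => rfl
      | succ n ih =>
        have h1 := hcon n
        rw [pow_succ', mul_app] at h1 ⊢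
        exact (mem_iff_of_not hFa h1).trans ih
    apply hx
    constructor
    · intro h
      exact Eventually.of_forall fun n => (hiff n).2 h
    · intro h
      obtain ⟨n, hn⟩ := h.exists
      exact (hiff n).1 hn
  have claim2 : ∀ x, ¬ (x ∈ X ↔ x ∈ X0) → ∃ n : ℕ, (b ^ (n + 1)) x ∈ F := by
    intro x hx
    by_contra hcon
    push Not at hcon
    have hiff : ∀ n : ℕ, (b ^ n) x ∈ X ↔ x ∈ X := by
      intro n
      induction n with
      | zero => rfl
      | succ n ih =>
        have h1 := hcon n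
        rw [pow_succ', mul_app] at h1 ⊢
        exact (mem_iff_of_not hFb h1).trans ih
    have hiff0 : ∀ n : ℕ, (b ^ n) x ∈ X0 ↔ x ∈ X0 := by
      intro n
      induction n with
      | zero => rfl
      | succ n ih =>
        rw [pow_succ', mul_app]
        exact (hX0b _).trans ih
    have hall : ∀ k : ℕ, ∃ n : ℕ, (a ^ (n + 1)) ((b ^ k) x) ∈ F := by
      intro k
      apply claim1
      rw [hiff, hiff0]
      exact hx
    choose nn hnn using hall
    refine Set.infinite_of_injective_forall_mem (f := fun k : ℕ => (a ^ (nn k + 1)) ((b ^ k) x))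
      ?_ hnn hFfin
    intro k l hkl
    have h1 : (a ^ ((nn k : ℤ) - nn l) * b ^ ((k : ℤ) - l)) x = x := by
      have h2 : ((a ^ (nn l + 1)) * (b ^ l))⁻¹ (((a ^ (nn k + 1)) * (b ^ k)) x) = x := by
        have hkl' : (a ^ (nn k + 1) * b ^ k) x = (a ^ (nn l + 1) * b ^ l) x := hkl
        rw [hkl', inv_app]
      rw [← mul_app] at h2
      have h3 : a ^ ((nn k : ℤ) - nn l) * b ^ ((k : ℤ) - l) =
          ((a ^ (nn l + 1)) * (b ^ l))⁻¹ * ((a ^ (nn k + 1)) * (b ^ k)) := by
        have c1 : Commute (b ^ l)⁻¹ (a ^ (nn l + 1))⁻¹ :=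
          ((hcomm.symm.pow_pow l (nn l + 1)).inv_inv)
        have c2 : Commute (b ^ l)⁻¹ (a ^ (nn k + 1)) :=
          ((hcomm.symm.pow_pow l (nn k + 1)).inv_left)
        rw [mul_inv_rev, c1.eq, mul_assoc, ← mul_assoc ((b ^ l)⁻¹), c2.eq, mul_assoc, ← mul_assoc]
        congr 1
        · rw [← zpow_natCast a (nn l + 1), ← zpow_natCast a (nn k + 1), ← zpow_neg, ← zpow_add]
          congr 1
          push_cast
          ring
        · rw [← zpow_natCast b l, ← zpow_natCast b k, ← zpow_neg, ← zpow_add]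
          congr 1
          ring
      rw [h3]; exact h2
    have := (hfree _ _ _ h1).2
    omega
  have hD : {x | ¬ (x ∈ X ↔ x ∈ X0)}.Finite := by
    classical
    let na : E → ℕ := fun x => if hx : ¬ (x ∈ X ↔ x ∈ X0) then (claim1 x hx).choose else 0
    let nb : E → ℕ := fun x => if hx : ¬ (x ∈ X ↔ x ∈ X0) then (claim2 x hx).choose else 0
    have hna : ∀ x, ¬ (x ∈ X ↔ x ∈ X0) → (a ^ (na x + 1)) x ∈ F := by
      intro x hx
      simp only [na, dif_pos hx]
      exact (claim1 x hx).choose_spec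
    have hnb : ∀ x, ¬ (x ∈ X ↔ x ∈ X0) → (b ^ (nb x + 1)) x ∈ F := by
      intro x hx
      simp only [nb, dif_pos hx]
      exact (claim2 x hx).choose_spec
    apply Set.Finite.of_injOn (f := fun x => ((a ^ (na x + 1)) x, (b ^ (nb x + 1)) x))
      (t := F ×ˢ F) ?_ ?_ (hFfin.prod hFfin)
    · intro x hx
      exact ⟨hna x hx, hnb x hx⟩
    · intro x hx y hy hxy
      simp only [Prod.mk.injEq] at hxy
      obtain ⟨h1, h2⟩ := hxy
      have e1 : (a ^ ((na x : ℤ) - na y)) x = y := by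
        have : (a ^ (na y + 1))⁻¹ ((a ^ (na x + 1)) x) = y := by rw [h1, inv_app]
        rw [← mul_app] at this
        have h3 : a ^ ((na x : ℤ) - na y) = (a ^ (na y + 1))⁻¹ * (a ^ (na x + 1)) := by
          rw [← zpow_natCast a (na y + 1), ← zpow_natCast a (na x + 1), ← zpow_neg, ← zpow_add]
          congr 1
          push_cast
          ring
        rw [h3]; exact this
      have e2 : (b ^ ((nb y : ℤ) - nb x)) y = x := by
        have : (b ^ (nb x + 1))⁻¹ ((b ^ (nb y + 1)) y) = x := by rw [← h2, inv_app]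
        rw [← mul_app] at this
        have h3 : b ^ ((nb y : ℤ) - nb x) = (b ^ (nb x + 1))⁻¹ * (b ^ (nb y + 1)) := by
          rw [← zpow_natCast b (nb x + 1), ← zpow_natCast b (nb y + 1), ← zpow_neg, ← zpow_add]
          congr 1
          push_cast
          ring
        rw [h3]; exact this
      have e3 : (a ^ ((na x : ℤ) - na y) * b ^ ((nb y : ℤ) - nb x)) y = y := by
        rw [mul_app, e2, e1]
      have e4 := hfree _ _ _ e3
      rw [e4.1, zpow_zero] at e1
      exact e1
  refine ⟨X0, hinv a hX0a, hinv b hX0b, hD.subset ?_, hD.subset ?_⟩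
  · intro x hx
    simp only [Set.mem_ofPred_eq]
    intro h
    exact hx.2 (h.1 hx.1)
  · intro x hx
    simp only [Set.mem_ofPred_eq]
    intro h
    exact hx.2 (h.2 hx.1)

end Pool.Agent.R795.Myc
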