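import Mathlib
import Pool.Agent.R795.Myc.D

namespace Pool.Agent.R795.Myc

open Filter Topology
open scoped RealInnerProductSpace

variable {E : Type*} [NormedAddCommGroup E] [InnerProductSpace ℝ E]

theorem trans_zpow {t : E ≃ᵃⁱ[ℝ] E} {τ : E} (ht : ∀ x, t x = x + τ) (m : ℤ) (x : E) :
    (t ^ m) x = x + (m : ℝ) • τ := by
  have hnat : ∀ (n : ℕ) (x : E), (t ^ n) x = x + (n : ℝ) • τ := by
    intro n
    induction n with
    | zero => intro x; rw [pow_zero, one_app]; simp
    | succ n ih =>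
      intro x
      rw [pow_succ, mul_app, ht, ih]
      push_cast
      module
  obtain ⟨n, rfl | rfl⟩ := m.eq_nat_or_neg
  · rw [zpow_natCast, hnat]; simp
  · rw [zpow_neg, zpow_natCast]
    have h1 : (t ^ n) (x + ((-(n : ℤ) : ℤ) : ℝ) • τ) = x := by
      rw [hnat]
      push_cast
      module
    conv_lhs => rw [← h1]
    rw [inv_app]

theorem zpow_fixed {v : E ≃ᵃⁱ[ℝ] E} {z : E} (hz : v z = z) : v⁻¹ z = z := by
  conv_lhs => rw [← hz]
  rw [inv_app]

theorem core [FiniteDimensional ℝ E] (h3 : Module.finrank ℝ E = 3) {X : Set E} {p q : E}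
    (hX : Isol X) (hp : p ∈ X) (hq : q ∈ X) (hpq : p ≠ q) (g h : E ≃ᵃⁱ[ℝ] E)
    (hg : g '' X = X \ {p}) (hh : h '' X = X \ {q}) : False := by
  -- elementary facts
  have hgX : ∀ x ∈ X, g x ∈ X ∧ g x ≠ p := by
    intro x hx
    have : g x ∈ g '' X := ⟨x, hx, rfl⟩
    rw [hg] at this
    exact ⟨this.1, this.2⟩
  have hhX : ∀ x ∈ X, h x ∈ X ∧ h x ≠ q := by
    intro x hx
    have : h x ∈ h '' X := ⟨x, hx, rfl⟩
    rw [hh] at this
    exact ⟨this.1, this.2⟩
  have hgS : g ∈ Sg X p q := by
    refine ⟨fun x hx => (hgX x hx).1, ?_⟩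
    rintro ⟨⟨x, hx, he⟩, -⟩
    exact (hgX x hx).2 he
  have hhS : h ∈ Sg X p q := by
    refine ⟨fun x hx => (hhX x hx).1, ?_⟩
    rintro ⟨-, ⟨x, hx, he⟩⟩
    exact (hhX x hx).2 he
  have nofix : ∀ v ∈ Sg X p q, ∀ z : E, v z ≠ z := fun v hv z => no_fixed hX hp hq hv z
  -- the common axis
  obtain ⟨u, hu, haxis⟩ := common_axis h3 hX hp hq ⟨g, hgS⟩
  obtain ⟨b, hb⟩ := exists_basis h3 hu
  have hcomm : ∀ x, R g (R g (R h (R h x))) = R h (R h (R g (R g x))) := by
    intro x
    apply squares_commute (R g) (R h) b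
    · rw [hb]; exact haxis g hgS
    · rw [hb]; exact haxis h hhS
  -- the translation
  obtain ⟨P, hP⟩ : ∃ P, P = g * g * (h * h) := ⟨_, rfl⟩
  obtain ⟨Q, hQ⟩ : ∃ Q, Q = h * h * (g * g) := ⟨_, rfl⟩
  obtain ⟨t, htdef⟩ : ∃ t, t = P * Q⁻¹ := ⟨_, rfl⟩
  have hRPQ : ∀ x, R P x = R Q x := by
    intro x
    rw [hP, hQ, R_mul, R_mul, R_mul, R_mul, R_mul, R_mul]
    exact hcomm x
  have hRt : ∀ x, R t x = x := by
    intro x
    rw [htdef, R_mul, hRPQ, ← R_mul, mul_inv_cancel, R_one]
  obtain ⟨τ, hτ⟩ : ∃ τ, τ = t 0 := ⟨_, rfl⟩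
  have ht : ∀ x, t x = x + τ := by
    intro x
    rw [app_eq t x, hRt, hτ]
  have hτ0 : τ ≠ 0 := by
    intro h0
    have ht1 : ∀ x, P x = Q x := by
      intro x
      have := ht (Q x)
      rw [h0, add_zero, htdef, mul_app, inv_app] at this
      exact this
    -- p = h q or contradiction
    have hmemg : ∀ y ∈ X, y ≠ p → ∃ x ∈ X, g x = y := by
      intro y hy hyp
      have : y ∈ X \ {p} := ⟨hy, hyp⟩
      rw [← hg] at this
      exact this
    have hmemh : ∀ y ∈ X, y ≠ q → ∃ x ∈ X, h x = y := by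
      intro y hy hyq
      have : y ∈ X \ {q} := ⟨hy, hyq⟩
      rw [← hh] at this
      exact this
    -- p is not in P '' X, hence not in Q '' X
    have hpq1 : p = h q := by
      have hpP : ∀ x ∈ X, Q x ≠ p := by
        intro x hx hxp
        rw [← ht1, hP] at hxp
        exact (hgX _ ((hgS.1 _ (hhS.1 _ (hhS.1 x hx))))).2 hxp
      obtain ⟨x1, hx1, e1⟩ := hmemh p hp hpq
      by_cases c1 : x1 = q
      · rw [← c1, e1]
      · exfalso
        obtain ⟨x2, hx2, e2⟩ := hmemh x1 hx1 c1
        by_cases c2 : x2 = p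
        · apply nofix _ (sg_mul hhS hhS.1) p
          rw [mul_app, ← c2, e2, e1, c2]
        · obtain ⟨x3, hx3, e3⟩ := hmemg x2 hx2 c2
          by_cases c3 : x3 = p
          · apply nofix _ (sg_mul (sg_mul hhS hhS.1) hgS.1) p
            rw [mul_app, mul_app, ← c3, e3, e2, e1, c3]
          · obtain ⟨x4, hx4, e4⟩ := hmemg x3 hx3 c3
            apply hpP x4 hx4
            rw [hQ, mul_app, mul_app, mul_app, e4, e3, e2, e1]
    have hqp1 : q = g p := by
      have hqQ : ∀ x ∈ X, P x ≠ q := by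
        intro x hx hxq
        rw [ht1, hQ] at hxq
        exact (hhX _ ((hhS.1 _ (hgS.1 _ (hgS.1 x hx))))).2 hxq
      obtain ⟨x1, hx1, e1⟩ := hmemg q hq hpq.symm
      by_cases c1 : x1 = p
      · rw [← c1, e1]
      · exfalso
        obtain ⟨x2, hx2, e2⟩ := hmemg x1 hx1 c1
        by_cases c2 : x2 = q
        · apply nofix _ (sg_mul hgS hgS.1) q
          rw [mul_app, ← c2, e2, e1, c2]
        · obtain ⟨x3, hx3, e3⟩ := hmemh x2 hx2 c2
          by_cases c3 : x3 = q
          · apply nofix _ (sg_mul (sg_mul hgS hgS.1) hhS.1) q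
            rw [mul_app, mul_app, ← c3, e3, e2, e1, c3]
          · obtain ⟨x4, hx4, e4⟩ := hmemh x3 hx3 c3
            apply hqQ x4 hx4
            rw [hP, mul_app, mul_app, mul_app, e4, e3, e2, e1]
    apply nofix _ (sg_mul hhS hgS.1) p
    rw [mul_app, ← hqp1, ← hpq1]
  -- membership in the commensurating group and indices
  have hpX : X \ g '' X = {p} := by
    rw [hg]
    ext x
    simp only [Set.mem_sdiff, Set.mem_singleton_iff, not_and, not_not]
    exact ⟨fun hx => hx.2 hx.1, fun hx => ⟨hx ▸ hp, fun _ => hx⟩⟩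
  have hpX' : g '' X \ X = ∅ := by
    rw [hg]
    ext x
    simp only [Set.mem_sdiff, Set.mem_singleton_iff, Set.mem_empty_iff_false, iff_false, not_and,
      not_not]
    exact fun hx => hx.1
  have hqX : X \ h '' X = {q} := by
    rw [hh]
    ext x
    simp only [Set.mem_sdiff, Set.mem_singleton_iff, not_and, not_not]
    exact ⟨fun hx => hx.2 hx.1, fun hx => ⟨hx ▸ hq, fun _ => hx⟩⟩
  have hqX' : h '' X \ X = ∅ := by
    rw [hh]
    ext x
    simp only [Set.mem_sdiff, Set.mem_singleton_iff, Set.mem_empty_iff_false, iff_false, not_and,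
      not_not]
    exact fun hx => hx.1
  have hgK : g ∈ K X := by
    change Cm X (g '' X)
    constructor
    · rw [hpX]; exact Set.finite_singleton p
    · rw [hpX']; exact Set.finite_empty
  have hhK : h ∈ K X := by
    change Cm X (h '' X)
    constructor
    · rw [hqX]; exact Set.finite_singleton q
    · rw [hqX']; exact Set.finite_empty
  have hdg : dd X (g '' X) = 1 := by
    unfold dd
    rw [hpX, hpX']
    simp
  obtain ⟨gK, hgKdef⟩ : ∃ v : K X, v = ⟨g, hgK⟩ := ⟨_, rfl⟩
  obtain ⟨hK, hhKdef⟩ : ∃ v : K X, v = ⟨h, hhK⟩ := ⟨_, rfl⟩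
  obtain ⟨tK, htKdef⟩ : ∃ v : K X, v = gK * gK * (hK * hK) * (hK * hK * (gK * gK))⁻¹ := ⟨_, rfl⟩
  have htK' : tK.1 = t := by
    rw [htKdef, htdef, hP, hQ, hgKdef, hhKdef]
    rfl
  have htC : Cm X (t '' X) := by
    rw [← htK']; exact tK.2
  have hidxt : idx X tK = 1 := by
    rw [htKdef, map_mul, map_inv, map_mul, map_mul, map_mul, map_mul, map_mul, map_mul]
    rw [mul_inv_eq_one, mul_comm]
  have hidxg : idx X gK = Multiplicative.ofAdd 1 := by
    have h1 := idx_eq X gK
    rw [hgKdef] at h1 ⊢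
    rw [hdg] at h1
    exact h1
  by_cases hcase : R g τ = τ ∨ R g τ = -τ
  · -- case B
    have hR2 : R g (R g τ) = τ := by
      rcases hcase with h1 | h1
      · rw [h1, h1]
      · rw [h1, map_neg, h1, neg_neg]
    have hab : (g * g) * t = t * (g * g) := by
      ext1 x
      rw [mul_app (g * g) t, mul_app t (g * g), ht, ht]
      have h1 := R_sub (g * g) (x + τ) x
      rw [add_sub_cancel_left, R_mul, hR2] at h1
      exact eq_add_of_sub_eq' h1.symm
    have hggC : Cm X ((g * g) '' X) := by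
      have := (gK * gK).2
      rw [hgKdef] at this
      exact this
    have hfree : ∀ (m n : ℤ) (x : E), ((g * g) ^ m * t ^ n) x = x → m = 0 ∧ n = 0 := by
      intro m n x hx
      have hm : m = 0 := by
        have hval : ((gK * gK) ^ m * tK ^ n).1 = (g * g) ^ m * t ^ n := by
          rw [← htK', hgKdef]; rfl
        have hidx : idx X ((gK * gK) ^ m * tK ^ n) = Multiplicative.ofAdd (2 * m) := by
          rw [map_mul, map_zpow, map_zpow, hidxt, one_zpow, mul_one, map_mul, hidxg, ← ofAdd_add,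
            ← ofAdd_zsmul]
          congr 1
          simp
          ring
        have hidx' : idx X ((gK * gK) ^ m * tK ^ n)⁻¹ = Multiplicative.ofAdd (-(2 * m)) := by
          rw [map_inv, hidx, ← ofAdd_neg]
        have hC1 := ((gK * gK) ^ m * tK ^ n).2
        have hC2 := (((gK * gK) ^ m * tK ^ n)⁻¹).2
        have hd1 := idx_eq X ((gK * gK) ^ m * tK ^ n)
        have hd2 := idx_eq X ((gK * gK) ^ m * tK ^ n)⁻¹
        rw [hidx, toAdd_ofAdd] at hd1
        rw [hidx', toAdd_ofAdd] at hd2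
        have hf1 : ((gK * gK) ^ m * tK ^ n).1 x = x := by rw [hval]; exact hx
        have hf2 : (((gK * gK) ^ m * tK ^ n)⁻¹).1 x = x := zpow_fixed hf1
        have h1 := index_fixed hX _ hf1 hC1
        have h2 := index_fixed hX _ hf2 hC2
        omega
      refine ⟨hm, ?_⟩
      rw [hm, zpow_zero, one_mul, trans_zpow ht] at hx
      have h1 : (n : ℝ) • τ = 0 := by
        have := add_eq_left.1 hx
        exact this
      rcases smul_eq_zero.1 h1 with h2 | h2
      · exact_mod_cast h2
      · exact absurd h2 hτ0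
    obtain ⟨X0, hX0a, -, hX0c⟩ := z2 X (g * g) t hab hfree hggC htC
    have h0 := dd_zero_of_invariant hX0c (g * g) hX0a
    have h2 : idx X (gK * gK) = Multiplicative.ofAdd 2 := by
      rw [map_mul, hidxg, ← ofAdd_add]; rfl
    have h3 := idx_eq X (gK * gK)
    rw [h2, toAdd_ofAdd, hgKdef] at h3
    have h4 : ((⟨g, hgK⟩ : K X) * ⟨g, hgK⟩).1 = g * g := rfl
    rw [h4, h0] at h3
    norm_num at h3
  · -- case A
    push Not at hcase
    obtain ⟨hne1, hne2⟩ := hcase
    obtain ⟨s, hs⟩ : ∃ s, s = g * t * g⁻¹ := ⟨_, rfl⟩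
    have hsx : ∀ x, s x = x + R g τ := by
      intro x
      rw [hs, mul_app, mul_app, ht]
      have h1 := R_sub g (g⁻¹ x + τ) (g⁻¹ x)
      rw [add_sub_cancel_left, app_inv] at h1
      rw [h1]
      abel
    have hsC : Cm X (s '' X) := by
      have h1 := (gK * tK * gK⁻¹).2
      have h2 : (gK * tK * gK⁻¹).1 = s := by
        rw [hs, ← htK', hgKdef]; rfl
      rw [← h2]; exact h1
    have hst : s * t = t * s := by
      ext1 x
      rw [mul_app, mul_app, hsx, ht, ht, hsx]
      abel
    have hRτ0 : R g τ ≠ 0 := by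
      intro h0
      apply hτ0
      have : ‖R g τ‖ = ‖τ‖ := (R g).norm_map τ
      rw [h0, norm_zero] at this
      exact norm_eq_zero.1 this.symm
    have hfree : ∀ (m n : ℤ) (x : E), (s ^ m * t ^ n) x = x → m = 0 ∧ n = 0 := by
      intro m n x hx
      rw [mul_app, trans_zpow ht, trans_zpow hsx, add_assoc] at hx
      have h1 : (n : ℝ) • τ + (m : ℝ) • R g τ = 0 := add_eq_left.1 hx
      have h2 : (n : ℝ) • τ = -((m : ℝ) • R g τ) := eq_neg_of_add_eq_zero_left h1
      have h3 : |(n : ℝ)| * ‖τ‖ = |(m : ℝ)| * ‖τ‖ := by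
        have := congrArg norm h2
        rwa [norm_neg, norm_smul, norm_smul, (R g).norm_map, Real.norm_eq_abs,
          Real.norm_eq_abs] at this
      have h4 : |(n : ℝ)| = |(m : ℝ)| := mul_right_cancel₀ (norm_ne_zero_iff.2 hτ0) h3
      by_cases hm : m = 0
      · refine ⟨hm, ?_⟩
        rw [hm] at h4
        simp at h4
        exact h4
      · exfalso
        have hm' : (m : ℝ) ≠ 0 := by exact_mod_cast hm
        rcases abs_eq_abs.1 h4 with h5 | h5
        · rw [h5] at h2
          apply hne2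
          have h6 : (m : ℝ) • (τ + R g τ) = 0 := by
            rw [smul_add, h2]; abel
          rcases smul_eq_zero.1 h6 with h7 | h7
          · exact absurd h7 hm'
          · rw [add_comm] at h7
            exact eq_neg_of_add_eq_zero_left h7
        · rw [h5] at h2
          apply hne1
          have h6 : (m : ℝ) • (R g τ - τ) = 0 := by
            rw [smul_sub]
            have : (m : ℝ) • τ = (m : ℝ) • R g τ := by
              rw [neg_smul] at h2
              exact neg_injective h2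
            rw [this]; abel
          rcases smul_eq_zero.1 h6 with h7 | h7
          · exact absurd h7 hm'
          · exact sub_eq_zero.1 h7
    obtain ⟨X0, hX0s, hX0t, hX0c⟩ := z2 X s t hst hfree hsC htC
    -- g '' X0 is s-invariant
    have hgs : s '' (g '' X0) = g '' X0 := by
      rw [← mul_image, hs, mul_assoc, inv_mul_cancel, mul_one, mul_image, hX0t]
    have hCgX : Cm X0 (g '' X0) :=
      (hX0c.symm.trans hgK).trans (Cm.image hX0c g)
    have hempty : ∀ D : Set E, D.Finite → s '' D = D → D = ∅ := by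
      intro D hD hsD
      by_contra hne
      obtain ⟨x, hx⟩ := Set.nonempty_iff_ne_empty.2 hne
      have hall : ∀ n : ℕ, (s ^ n) x ∈ D := by
        intro n
        induction n with
        | zero => exact hx
        | succ n ih =>
          rw [pow_succ', mul_app]
          have : s ((s ^ n) x) ∈ s '' D := ⟨_, ih, rfl⟩
          rwa [hsD] at this
      refine Set.infinite_of_injective_forall_mem (f := fun n : ℕ => (s ^ n) x) ?_ hall hD
      intro m n hmn
      have h1 : (s ^ (m : ℤ)) x = (s ^ (n : ℤ)) x := by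
        rw [zpow_natCast, zpow_natCast]; exact hmn
      rw [trans_zpow hsx, trans_zpow hsx] at h1
      have h2 : ((m : ℤ) : ℝ) • R g τ = ((n : ℤ) : ℝ) • R g τ := add_left_cancel h1
      have h3 : (((m : ℤ) : ℝ) - ((n : ℤ) : ℝ)) • R g τ = 0 := by
        rw [sub_smul, h2, sub_self]
      rcases smul_eq_zero.1 h3 with h4 | h4
      · have : ((m : ℤ) : ℝ) = ((n : ℤ) : ℝ) := sub_eq_zero.1 h4
        exact_mod_cast this
      · exact absurd h4 hRτ0
    have he1 : X0 \ g '' X0 = ∅ := by
      apply hempty _ hCgX.1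
      rw [Set.image_sdiff (inj s), hX0s, hgs]
    have he2 : g '' X0 \ X0 = ∅ := by
      apply hempty _ hCgX.2
      rw [Set.image_sdiff (inj s), hX0s, hgs]
    have hginv : g '' X0 = X0 :=
      Set.Subset.antisymm (Set.sdiff_eq_empty.1 he2) (Set.sdiff_eq_empty.1 he1)
    have := dd_zero_of_invariant hX0c g hginv
    rw [hdg] at this
    norm_num at this

end Pool.Agent.R795.Myc
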